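import Pool.Agent.U180.DP.Stm

/-! Project DP (helper180), package VOID (helper580): the probability of an empty window. -/

set_option autoImplicit false

open MeasureTheory ProbabilityTheory Filter Topology

namespace Pool.Agent.U580.DP

open Pool.Agent.U180.DP

lemma one_sub_ge {q e : ℝ} (h0 : 0 ≤ q) (h1 : q ≤ e) (he : e ≤ 1 / 8) :
    Real.exp (-((1 + 2 * e) * q)) ≤ 1 - q := by
  have h2 : 0 < 1 - q := by linarith
  have h3 := Real.one_sub_inv_le_log_of_pos h2
  have h4 : (1 - q)⁻¹ ≤ 1 + (1 + 2 * e) * q := by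
    rw [inv_le_comm₀ h2 (by nlinarith), inv_le_iff_one_le_mul₀ (by nlinarith)]
    nlinarith [mul_nonneg h0 (sub_nonneg.2 h1), mul_nonneg h0 h0]
  have h5 : -((1 + 2 * e) * q) ≤ Real.log (1 - q) := by linarith
  calc Real.exp (-((1 + 2 * e) * q)) ≤ Real.exp (Real.log (1 - q)) := Real.exp_le_exp.2 h5
    _ = 1 - q := Real.exp_log h2

theorem t_VOID (h1 : S_DENS) (h2 : S_LAW) : S_VOID := by
  intro A B ε hA hB hε
  obtain ⟨e, he⟩ : ∃ e : ℝ, e = min ε 1 / 8 := ⟨_, rfl⟩
  have he0 : 0 < e := by
    rw [he]
    have : 0 < min ε 1 := lt_min hε one_pos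
    linarith
  have he1 : e ≤ ε / 8 := by
    rw [he]
    have := min_le_left ε 1
    linarith
  have he2 : e ≤ 1 / 8 := by
    rw [he]
    have := min_le_right ε 1
    linarith
  obtain ⟨X₀, hX⟩ := h1 A B e hA hB he0
  refine ⟨max X₀ 3, ?_⟩
  intro Ω _ P U hU x y hx hy hyB
  have hx0 : X₀ ≤ x := (le_max_left _ _).trans hx
  have hx3 : 3 ≤ x := (le_max_right _ _).trans hx
  obtain ⟨hs, hp⟩ := hX x y hx0 hy hyB
  have hlog : 0 < Real.log x := Real.log_pos (by linarith)
  have hyl : 0 < y / Real.log x := div_pos hy hlog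
  rw [(h2 Ω P A U hU hA).2.2.2.1 x y (by linarith) hy.le]
  obtain ⟨hs1, hs2⟩ := abs_le.1 hs
  constructor
  · calc Real.exp (-((1 + ε) * y / Real.log x))
        ≤ Real.exp (-((1 + 2 * e) * ∑ p ∈ prm (x + y), prb A x y p)) := by
          apply Real.exp_le_exp.2
          have h3 : (1 + 2 * e) * ∑ p ∈ prm (x + y), prb A x y p ≤
              (1 + 2 * e) * ((1 + e) * (y / Real.log x)) := by
            refine mul_le_mul_of_nonneg_left ?_ (by linarith)
            linarith
          have h4 : (1 + 2 * e) * ((1 + e) * (y / Real.log x)) ≤ (1 + ε) * (y / Real.log x) := by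
            rw [← mul_assoc]
            refine mul_le_mul_of_nonneg_right ?_ hyl.le
            nlinarith
          have h5 : (1 + ε) * y / Real.log x = (1 + ε) * (y / Real.log x) := by ring
          rw [h5]
          linarith
      _ = ∏ p ∈ prm (x + y), Real.exp (-((1 + 2 * e) * prb A x y p)) := by
          rw [← Real.exp_sum]
          congr 1
          rw [Finset.mul_sum, Finset.sum_neg_distrib]
      _ ≤ ∏ p ∈ prm (x + y), (1 - prb A x y p) := by
          refine Finset.prod_le_prod (fun p _ => (Real.exp_pos _).le) fun p hp' => ?_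
          exact one_sub_ge (hp p hp').1 (hp p hp').2 he2
  · calc ∏ p ∈ prm (x + y), (1 - prb A x y p)
        ≤ ∏ p ∈ prm (x + y), Real.exp (-prb A x y p) := by
          refine Finset.prod_le_prod (fun p hp' => ?_) fun p hp' => ?_
          · have := (hp p hp').2
            linarith
          · have := Real.add_one_le_exp (-prb A x y p)
            linarith
      _ = Real.exp (-∑ p ∈ prm (x + y), prb A x y p) := by
          rw [← Real.exp_sum, Finset.sum_neg_distrib]
      _ ≤ Real.exp (-((1 - ε) * y / Real.log x)) := by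
          apply Real.exp_le_exp.2
          have h3 : (1 - ε) * (y / Real.log x) ≤ (1 - e) * (y / Real.log x) := by
            refine mul_le_mul_of_nonneg_right ?_ hyl.le
            linarith
          have h5 : (1 - ε) * y / Real.log x = (1 - ε) * (y / Real.log x) := by ring
          rw [h5]
          linarith

end Pool.Agent.U580.DP
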